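import Pool.Agent.Q131.FP.Final

/-!
MP_76bad1_co, Q1: every simple connected bridgeless cubic graph on `n ≥ 6` vertices satisfies
`b_i ≤ |c_i|` for all `i`, where `∑ b_i t^i = (t+1)(t+2)^{n/2-2}(t+3)^2`.
-/

namespace Pool.Agent.Results.MP_76bad1_co.CoefficientBound

open Polynomial

/-- The number `c(Z)` of connected components of the spanning subgraph `(V, Z)`. -/
noncomputable def numComp {V : Type*} (Z : Finset (Sym2 V)) : ℕ :=
  Nat.card (SimpleGraph.fromEdgeSet (Z : Set (Sym2 V))).ConnectedComponent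

/-- The flow polynomial `F(G,t) = ∑_{Z ⊆ E} (-1)^(m-|Z|) t^(|Z| + c(Z) - n)`. -/
noncomputable def flowPoly {V : Type*} [Fintype V] (G : SimpleGraph V) [Fintype G.edgeSet] :
    ℤ[X] :=
  ∑ Z ∈ G.edgeFinset.powerset,
    (-1) ^ (G.edgeFinset.card - Z.card) * X ^ (Z.card + numComp Z - Fintype.card V)

/-- The polynomial `(t+1)(t+2)^{n/2-2}(t+3)^2`. -/
noncomputable def lowerPoly (n : ℕ) : ℤ[X] := (X + 1) * (X + 2) ^ (n / 2 - 2) * (X + 3) ^ 2

/-- Q1 of MP_76bad1_co holds: for every simple connected bridgeless cubic graph on `n ≥ 6`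
vertices, `b_i ≤ |c_i|` for every `i`. -/
theorem result :
    ∀ {V : Type*} [Fintype V] [DecidableEq V] (G : SimpleGraph V) [DecidableRel G.Adj],
      G.Connected → (∀ e ∈ G.edgeSet, ¬ G.IsBridge e) → G.IsRegularOfDegree 3 →
      6 ≤ Fintype.card V →
      ∀ i : ℕ, (lowerPoly (Fintype.card V)).coeff i ≤ |(flowPoly G).coeff i| := by
  intro V _ _ G _ hconn hbr hreg hn i
  exact Q131.FP.main G hconn hbr hreg hn i

end Pool.Agent.Results.MP_76bad1_co.CoefficientBound
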